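import Pool.Agent.Run7.h388.Fin

open Run7.h388

/-- Let `G` be a complex reductive algebraic group with a real group structure `σ`, and let `X` be
an affine irreducible normal `G`-variety of complexity at most one. Then `X` has only finitely many
equivalence classes of `(G, σ)`-equivariant real structures. -/
theorem Pool.Agent.Results.MP_2461de_ag.AffineComplexityOne.result
    (G : Type) [Group G] (OG : Subalgebra ℂ (G → ℂ)) (hG : IsAlgebraicGroup OG)
    (hred : IsReductive OG) (σ : G →* G) (hσ : IsRealGroupStructure OG σ)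
    (X : Type) [MulAction G X] (OX : Subalgebra ℂ (X → ℂ)) (hX : IsAffineVariety OX)
    (hirr : IsDomain OX) (hnorm : IsIntegrallyClosed OX) (hact : IsRegularAction OG OX)
    (hc : ComplexityAtMost OG OX 1) :
    ∃ S : Set (X → X), S.Finite ∧ (∀ ν ∈ S, IsRealStructure OX σ ν) ∧
      ∀ μ : X → X, IsRealStructure OX σ μ → ∃ ν ∈ S, ∃ φ : Equiv.Perm X,
        IsEquivariantAut G OX φ ∧ ∀ x, ν x = φ (μ (φ.symm x)) :=
  main_affine hG hred hX hact hc σ hσ
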